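import Mathlib
import Pool.Agent.Y984.MD.Final

/-! # MP_291ce2_pr, Q1: mixing time of the censored hypercube walk on large monotone sets -/

set_option autoImplicit false

namespace Pool.Agent.Results.MP_291ce2_pr.LargeMonotoneSets

open Finset

/-- the points of the hypercube -/
abbrev Pt (n : ℕ) : Type := Fin n → Bool

/-- `A` is monotone: `x ∈ A` and `x ≤ y` imply `y ∈ A` -/
def IsMonotone {n : ℕ} (A : Finset (Pt n)) : Prop :=
  ∀ x ∈ A, ∀ y : Pt n, (∀ i, x i ≤ y i) → y ∈ A

/-- the uniform probability of `A` -/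
noncomputable def prob {n : ℕ} (A : Finset (Pt n)) : ℝ := (A.card : ℝ) / 2 ^ n

/-- the move of the censored chain from `x` when coordinate `i` and the fresh bit `b` are drawn:
replace `x i` by `b` if the result is in `A`, and stay at `x` otherwise -/
def move {n : ℕ} (A : Finset (Pt n)) (x : Pt n) (i : Fin n) (b : Bool) : Pt n :=
  if Function.update x i b ∈ A then Function.update x i b else x

/-- transition matrix of the censored chain `M_A`: the `2 n` pairs `(i, b)` are equally likely -/
noncomputable def kernel {n : ℕ} (A : Finset (Pt n)) : Matrix A A ℝ := fun x y =>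
  ((univ.filter fun p : Fin n × Bool => move A x.1 p.1 p.2 = y.1).card : ℝ) / (2 * n)

/-- total variation distance -/
noncomputable def tvDist {n : ℕ} {A : Finset (Pt n)} (μ ν : A → ℝ) : ℝ :=
  (1 / 2) * ∑ y, |μ y - ν y|

/-- the uniform distribution on `A` -/
noncomputable def uniform {n : ℕ} (A : Finset (Pt n)) : A → ℝ := fun _ => 1 / (A.card : ℝ)

/-- the `t`-step law from every state of `A` is within `1/4` of uniform in total variation -/
def MixedAt {n : ℕ} (A : Finset (Pt n)) (t : ℕ) : Prop :=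
  ∀ x : A, tvDist ((kernel A ^ t) x) (uniform A) ≤ 1 / 4

/-- the mixing time of `M_A` -/
noncomputable def mixingTime {n : ℕ} (A : Finset (Pt n)) : ℕ := sInf {t | MixedAt A t}

theorem kernel_eq {n : ℕ} (hn : 0 < n) (A : Finset (Pt n)) :
    kernel A = Pool.Agent.Y984.MD.P A := by
  ext x y
  have hn' : (0 : ℝ) < n := by exact_mod_cast hn
  have hself : ∀ i, move A x.1 i (x.1 i) = x.1 := by
    intro i
    simp [move]
  have hflip : ∀ i, move A x.1 i (!(x.1 i)) = Pool.Agent.Y984.MD.mv A x.1 i := fun i => rfl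
  have hsplit : ((univ.filter fun p : Fin n × Bool => move A x.1 p.1 p.2 = y.1).card : ℝ) =
      ∑ i : Fin n, ∑ b : Bool, if move A x.1 i b = y.1 then (1 : ℝ) else 0 := by
    rw [card_filter]
    push_cast
    rw [← univ_product_univ, sum_product]
  have hpair : ∀ i : Fin n, (∑ b : Bool, if move A x.1 i b = y.1 then (1 : ℝ) else 0) =
      (if y = x then 1 else 0) +
        if Pool.Agent.Y984.MD.mv A x.1 i = y.1 then (1 : ℝ) else 0 := by
    intro i
    have h1 : (∑ b : Bool, if move A x.1 i b = y.1 then (1 : ℝ) else 0) =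
        (if move A x.1 i (x.1 i) = y.1 then (1 : ℝ) else 0) +
        if move A x.1 i (!(x.1 i)) = y.1 then (1 : ℝ) else 0 := by
      cases x.1 i
      · rw [Fintype.sum_bool, add_comm]; rfl
      · rw [Fintype.sum_bool]; rfl
    rw [h1, hself, hflip]
    congr 1
    have : (x.1 = y.1) ↔ y = x := ⟨fun h => (Subtype.ext h).symm, fun h => by rw [h]⟩
    simp only [this]
  have hcount : (∑ i : Fin n, if Pool.Agent.Y984.MD.mv A x.1 i = y.1 then (1 : ℝ) else 0) =
      ((univ.filter fun i : Fin n => Pool.Agent.Y984.MD.mv A x.1 i = y.1).card : ℝ) := by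
    rw [card_filter]; push_cast; rfl
  rw [kernel, Pool.Agent.Y984.MD.P, hsplit, Finset.sum_congr rfl fun i _ => hpair i,
    sum_add_distrib, hcount, sum_const, card_univ, Fintype.card_fin, nsmul_eq_mul]
  field_simp

theorem mixedAt_iff {n : ℕ} (hn : 0 < n) (A : Finset (Pt n)) (t : ℕ) :
    MixedAt A t ↔ Pool.Agent.Y984.MD.Mixed A t := by
  unfold MixedAt
  rw [kernel_eq hn A]
  exact Iff.rfl

/-- **Affirmative answer to Q1.** For every `c > 0` there is a constant `C > 0` (one may take
`C = 10^12 / c^8`) such that for all `n ≥ 2` and all nonempty monotone `A` with `ℙ(A) ≥ c` the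
mixing time of the censored chain `M_A` (the minimum is attained) is at most `C n log n`. -/
theorem result : ∀ c : ℝ, 0 < c → ∃ C : ℝ, 0 < C ∧ C = 10 ^ 12 / c ^ 8 ∧
    ∀ n : ℕ, 2 ≤ n → ∀ A : Finset (Pt n), A.Nonempty → IsMonotone A → c ≤ prob A →
      MixedAt A (mixingTime A) ∧ (mixingTime A : ℝ) ≤ C * (n * Real.log n) := by
  intro c hc
  refine ⟨10 ^ 12 / c ^ 8, by positivity, rfl, fun n hn A hne hA hcA => ?_⟩
  have hn0 : 0 < n := by omega
  have hset : {t | MixedAt A t} = {t | Pool.Agent.Y984.MD.Mixed A t} := by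
    ext t; exact mixedAt_iff hn0 A t
  have hmt : mixingTime A = Pool.Agent.Y984.MD.tmix A := by
    rw [mixingTime, hset]; rfl
  obtain ⟨h1, h2⟩ := Pool.Agent.Y984.MD.final n hn A hne hA
  rw [hmt]
  refine ⟨(mixedAt_iff hn0 A _).2 h1, h2.trans ?_⟩
  have hlog : 0 ≤ (n : ℝ) * Real.log n :=
    mul_nonneg (Nat.cast_nonneg n) (Real.log_natCast_nonneg n)
  have hd : c ^ 8 ≤ Pool.Agent.Y984.MD.dens A ^ 8 := pow_le_pow_left₀ hc.le hcA 8
  have hc8 : 0 < c ^ 8 := by positivity
  calc 10 ^ 12 * (n * Real.log n) / Pool.Agent.Y984.MD.dens A ^ 8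
      ≤ 10 ^ 12 * (n * Real.log n) / c ^ 8 := by
        apply div_le_div_of_nonneg_left (by positivity) hc8 hd
    _ = 10 ^ 12 / c ^ 8 * (n * Real.log n) := by ring

end Pool.Agent.Results.MP_291ce2_pr.LargeMonotoneSets
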